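import Pool.Agent.V11330.BMTools
import Pool.Agent.V11330.RajV
import Pool.Agent.V11330.RajFourier

set_option autoImplicit false

open Set Filter Topology MeasureTheory ProbabilityTheory
open scoped NNReal ENNReal

namespace Pool.Agent.Results.MP_4f24d6_pr.NoRajchmanGraph

open Pool.Agent.V11330.Raj

/-- The graph over `[0,1]` of a real function `f`. -/
def graph (f : ℝ → ℝ) : Set (ℝ × ℝ) := {p | ∃ t ∈ Icc (0 : ℝ) 1, p = (t, f t)}

/-- The Fourier transform `ξ ↦ ∫ exp(-2πi⟨ξ,x⟩) dμ(x)` of a measure on the plane. -/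
noncomputable def fourier (μ : Measure (ℝ × ℝ)) (ξ : ℝ × ℝ) : ℂ :=
  ∫ x, Complex.exp (-2 * Real.pi * Complex.I * (ξ.1 * x.1 + ξ.2 * x.2)) ∂μ

/-- A nonzero finite Borel measure on the plane is a Rajchman measure if its Fourier transform
tends to zero at infinity. -/
def IsRajchman (μ : Measure (ℝ × ℝ)) : Prop :=
  IsFiniteMeasure μ ∧ μ ≠ 0 ∧ Tendsto (fourier μ) (cocompact (ℝ × ℝ)) (𝓝 0)

/-- the oscillation scale -/
noncomputable def eta (k : ℕ) : ℝ := Real.exp (-(Nn k : ℝ) ^ 2)

lemma eta_pos (k : ℕ) : 0 < eta k := Real.exp_pos _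

lemma tendsto_Nn : Tendsto (fun k => (Nn k : ℝ)) atTop atTop :=
  tendsto_natCast_atTop_atTop.comp strictMono_Nn.tendsto_atTop

lemma pow_eta (C : ℕ) : Tendsto (fun k => (C : ℝ) ^ (Nn k) * eta k) atTop (𝓝 0) := by
  have h1 : Tendsto (fun k => Real.exp (-(Nn k : ℝ))) atTop (𝓝 0) :=
    Real.tendsto_exp_atBot.comp (tendsto_neg_atTop_atBot.comp tendsto_Nn)
  refine squeeze_zero' (Eventually.of_forall fun k => ?_) ?_ h1
  · exact mul_nonneg (by positivity) (eta_pos k).le
  · filter_upwards [tendsto_Nn.eventually (eventually_ge_atTop ((C : ℝ) + 1))] with k hk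
    have h2 : (C : ℝ) ≤ Real.exp C := by linarith [Real.add_one_le_exp (C : ℝ)]
    calc (C : ℝ) ^ (Nn k) * eta k ≤ (Real.exp C) ^ (Nn k) * eta k := by
          have := (eta_pos k).le
          gcongr
      _ = Real.exp (Nn k * C - (Nn k : ℝ) ^ 2) := by
          rw [← Real.exp_nat_mul, eta, ← Real.exp_add]; ring_nf
      _ ≤ Real.exp (-(Nn k : ℝ)) := by
          rw [Real.exp_le_exp]
          have h3 : (0 : ℝ) ≤ Nn k := Nat.cast_nonneg _
          nlinarith

lemma D_le_eta (k : ℕ) : D k ≤ eta k := by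
  unfold D eta
  rw [Real.exp_le_exp]
  have : (0 : ℝ) ≤ (Nn k : ℝ) ^ 2 := by positivity
  linarith

lemma pow_D (C : ℕ) : Tendsto (fun k => (C : ℝ) ^ (Nn k) * D k) atTop (𝓝 0) := by
  refine squeeze_zero (fun k => mul_nonneg (by positivity) (D_pos k).le) (fun k => ?_) (pow_eta C)
  gcongr
  exact D_le_eta k

/-- Brownian oscillations at the special points are eventually tiny -/
lemma osc_event {Ω : Type*} [MeasurableSpace Ω] {P : Measure Ω} {B : ℝ≥0 → Ω → ℝ}
    (hB : IsBrownianReal B P) :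
    ∀ᵐ ω ∂P, ∀ᶠ K in atTop, ∀ a ∈ AK K, ∀ s : ℝ≥0, (s : ℝ) ≤ D K →
      |B (a.toNNReal + s) ω - B a.toNNReal ω| ≤ eta K := by
  have hpr : IsProbabilityMeasure P := hB.isGaussianProcess.isProbabilityMeasure
  set bad : ℕ → Set Ω := fun K => ⋃ a ∈ AK K, {ω | ∃ s ≤ (D K).toNNReal,
    eta K < |B (a.toNNReal + s) ω - B a.toNNReal ω|} with hbad
  have h1 : ∀ K, P (bad K) ≤ ENNReal.ofReal (4 * Real.exp (-(K : ℝ))) := by
    intro K
    have h2 : ∀ a ∈ AK K, P {ω | ∃ s ≤ (D K).toNNReal,
        eta K < |B (a.toNNReal + s) ω - B a.toNNReal ω|} ≤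
        ENNReal.ofReal (4 * Real.exp (-(Nn K : ℝ) ^ 2)) := by
      intro a _
      have h3 := V11330.BMTools.osc_bound (hB.shift a.toNNReal) (δ := (D K).toNNReal)
        (Real.toNNReal_pos.2 (D_pos K)) (eta_pos K)
      refine h3.trans (le_of_eq ?_)
      congr 1
      rw [Real.coe_toNNReal _ (D_pos K).le, mul_div_assoc]
      congr 1
      unfold D eta
      rw [← Real.exp_nat_mul, ← Real.exp_sub]
      congr 1
      push_cast; ring
    calc P (bad K) ≤ ∑ a ∈ AK K, P {ω | ∃ s ≤ (D K).toNNReal,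
          eta K < |B (a.toNNReal + s) ω - B a.toNNReal ω|} := measure_biUnion_finset_le _ _
      _ ≤ ∑ _a ∈ AK K, ENNReal.ofReal (4 * Real.exp (-(Nn K : ℝ) ^ 2)) := Finset.sum_le_sum h2
      _ = (AK K).card * ENNReal.ofReal (4 * Real.exp (-(Nn K : ℝ) ^ 2)) := by
          rw [Finset.sum_const, nsmul_eq_mul]
      _ ≤ ENNReal.ofReal (4 * Real.exp (-(K : ℝ))) := by
          rw [← ENNReal.ofReal_natCast, ← ENNReal.ofReal_mul (by positivity)]
          refine ENNReal.ofReal_le_ofReal ?_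
          have h4 : ((AK K).card : ℝ) ≤ Nn K := by exact_mod_cast card_AK K
          have h5 : (K : ℝ) ≤ Nn K := by exact_mod_cast le_Nn K
          have h6 : (Nn K : ℝ) ≤ Real.exp ((Nn K : ℝ) ^ 2 - Nn K) := by
            have := Real.add_one_le_exp ((Nn K : ℝ) ^ 2 - Nn K)
            nlinarith [sq_nonneg ((Nn K : ℝ) - 1)]
          have h7 : Real.exp ((Nn K : ℝ) ^ 2 - Nn K) * Real.exp (-(Nn K : ℝ) ^ 2) =
              Real.exp (-(Nn K : ℝ)) := by
            rw [← Real.exp_add]; congr 1; ring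
          have h8 : Real.exp (-(Nn K : ℝ)) ≤ Real.exp (-(K : ℝ)) := by
            rw [Real.exp_le_exp]; linarith
          have h9 := Real.exp_pos (-(Nn K : ℝ) ^ 2)
          calc ((AK K).card : ℝ) * (4 * Real.exp (-(Nn K : ℝ) ^ 2))
              ≤ Nn K * (4 * Real.exp (-(Nn K : ℝ) ^ 2)) := by gcongr
            _ ≤ Real.exp ((Nn K : ℝ) ^ 2 - Nn K) * (4 * Real.exp (-(Nn K : ℝ) ^ 2)) := by gcongr
            _ = 4 * Real.exp (-(Nn K : ℝ)) := by rw [← h7]; ring
            _ ≤ _ := by linarith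
  have hsum : ∑' K, P (bad K) ≠ ∞ := by
    have h2 : Summable fun K : ℕ => 4 * Real.exp (-(K : ℝ)) := by
      refine Summable.mul_left 4 ?_
      exact Real.summable_exp_neg_nat
    refine ne_top_of_le_ne_top ?_ (ENNReal.tsum_le_tsum h1)
    rw [← ENNReal.ofReal_tsum_of_nonneg (fun K => by positivity) h2]
    exact ENNReal.ofReal_ne_top
  filter_upwards [ae_eventually_notMem hsum] with ω hω
  filter_upwards [hω] with K hK a ha s hs
  by_contra hcon
  push Not at hcon
  apply hK
  simp only [hbad, mem_iUnion]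
  refine ⟨a, ha, s, ?_, hcon⟩
  rw [← NNReal.coe_le_coe, Real.coe_toNNReal _ (D_pos K).le]
  exact hs

/-- the marginal Fourier transforms tend to zero -/
lemma marginal {μ : Measure (ℝ × ℝ)} (hμ : IsRajchman μ) (g : ℝ → ℝ × ℝ) (pr : ℝ × ℝ → ℝ)
    (hpr : Measurable pr) (hg : IsClosedEmbedding g)
    (h : ∀ u x, (g u).1 * x.1 + (g u).2 * x.2 = -(u * pr x)) :
    Tendsto (fun u : ℝ => ∫ x, e (u * x) ∂(μ.map pr)) (cocompact ℝ) (𝓝 0) := by
  have h1 := hμ.2.2.comp hg.tendsto_cocompact
  refine h1.congr fun u => ?_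
  rw [integral_map hpr.aemeasurable]
  · simp only [Function.comp_apply, fourier]
    refine integral_congr_ae (Eventually.of_forall fun x => ?_)
    simp only [e]
    congr 1
    have := h u x
    have h2 : (((g u).1 : ℂ) * x.1 + (g u).2 * x.2) = -((u * pr x : ℝ) : ℂ) := by
      rw [← Complex.ofReal_neg, ← this]; push_cast; ring
    rw [h2]; push_cast; ring
  · exact (continuous_e.comp (by fun_prop)).aestronglyMeasurable

/-- There is a continuous strictly increasing time change `V` such that, for every Brownian motion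
`B`, almost surely the graph of `t ↦ B (V t)` over `[0,1]` supports no Rajchman measure. -/
theorem result : ∃ V : ℝ → ℝ≥0, ContinuousOn V (Icc 0 1) ∧ StrictMonoOn V (Icc 0 1) ∧
    ∀ {Ω : Type*} [MeasurableSpace Ω] (P : Measure Ω) (B : ℝ≥0 → Ω → ℝ), IsBrownianReal B P →
      ∀ᵐ ω ∂P, ∀ μ : Measure (ℝ × ℝ), IsRajchman μ →
        ¬ μ.support ⊆ graph (fun t => B (V t) ω) := by
  refine ⟨fun t => (V t).toNNReal, ?_, ?_, ?_⟩
  · exact (continuous_real_toNNReal.comp V_continuous).continuousOn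
  · intro s _ t _ hst
    exact (Real.toNNReal_lt_toNNReal_iff_of_nonneg (V_nonneg s)).2 (V_strictMono hst)
  intro Ω _ P B hB
  filter_upwards [osc_event hB] with ω hω μ hμ hsupp
  have hfin := hμ.1
  set f : ℝ → ℝ := fun t => B (V t).toNNReal ω with hf
  -- the measure is carried by the graph
  have hG : μ (graph f)ᶜ = 0 := by
    refine measure_mono_null (compl_subset_compl.2 hsupp) ?_
    exact Measure.measure_compl_support
  -- the two marginals
  have m1 : Tendsto (fun u : ℝ => ∫ x, e (u * x) ∂(μ.map Prod.fst)) (cocompact ℝ) (𝓝 0) := by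
    refine marginal hμ (fun u => (-u, 0)) Prod.fst measurable_fst ?_ (fun u x => by ring)
    refine Topology.IsClosedEmbedding.of_continuous_injective_isClosedMap (by fun_prop) ?_ ?_
    · intro a b hab; simpa using hab
    · intro s hs
      have : (fun u : ℝ => (-u, (0 : ℝ))) '' s = {p : ℝ × ℝ | -p.1 ∈ s ∧ p.2 = 0} := by
        ext p
        constructor
        · rintro ⟨u, hu, rfl⟩; exact ⟨by simpa using hu, rfl⟩
        · rintro ⟨h1, h2⟩; exact ⟨-p.1, h1, by ext <;> simp [h2]⟩
      rw [this]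
      exact (hs.preimage (by fun_prop)).inter (isClosed_eq (by fun_prop) (by fun_prop))
  have m2 : Tendsto (fun u : ℝ => ∫ x, e (u * x) ∂(μ.map Prod.snd)) (cocompact ℝ) (𝓝 0) := by
    refine marginal hμ (fun u => (0, -u)) Prod.snd measurable_snd ?_ (fun u x => by ring)
    refine Topology.IsClosedEmbedding.of_continuous_injective_isClosedMap (by fun_prop) ?_ ?_
    · intro a b hab; simpa using hab
    · intro s hs
      have : (fun u : ℝ => ((0 : ℝ), -u)) '' s = {p : ℝ × ℝ | -p.2 ∈ s ∧ p.1 = 0} := by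
        ext p
        constructor
        · rintro ⟨u, hu, rfl⟩; exact ⟨by simpa using hu, rfl⟩
        · rintro ⟨h1, h2⟩; exact ⟨-p.2, h1, by ext <;> simp [h2]⟩
      rw [this]
      exact (hs.preimage (by fun_prop)).inter (isClosed_eq (by fun_prop) (by fun_prop))
  classical
  have t1 := fourier_small m1 card_TK pow_D
  have t2 := fourier_small m2 (T := fun K => (AK K).image fun a => B a.toNNReal ω) (N := Nn)
    (fun K => Finset.card_image_le.trans (card_AK K)) pow_eta
  have hle : ∀ᶠ K in atTop, μ.real univ ≤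
      (μ.map Prod.fst).real {x | ∃ τ ∈ TK K, |x - τ| ≤ D K} +
      (μ.map Prod.snd).real {x | ∃ τ ∈ (AK K).image (fun a => B a.toNNReal ω), |x - τ| ≤ eta K} := by
    filter_upwards [hω] with K hK
    have hms : ∀ (T : Finset ℝ) (δ : ℝ), MeasurableSet {x : ℝ | ∃ τ ∈ T, |x - τ| ≤ δ} := by
      intro T δ
      have : {x : ℝ | ∃ τ ∈ T, |x - τ| ≤ δ} = ⋃ τ ∈ T, {x | |x - τ| ≤ δ} := by
        ext x; simp
      rw [this]
      refine Finset.measurableSet_biUnion _ fun τ _ => ?_
      exact measurableSet_le (by fun_prop) measurable_const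
    rw [map_measureReal_apply measurable_fst (hms _ _), map_measureReal_apply measurable_snd (hms _ _)]
    have hsub : graph f ⊆ (Prod.fst ⁻¹' {x | ∃ τ ∈ TK K, |x - τ| ≤ D K}) ∪
        (Prod.snd ⁻¹' {x | ∃ τ ∈ (AK K).image (fun a => B a.toNNReal ω), |x - τ| ≤ eta K}) := by
      rintro p ⟨t, _, rfl⟩
      rcases cover K t with h | ⟨a, ha, h1, h2⟩
      · left; exact h
      · right
        refine ⟨B a.toNNReal ω, Finset.mem_image.2 ⟨a, ha, rfl⟩, ?_⟩
        have ha0 := AK_nonneg ha
        have h3 := hK a ha (V t - a).toNNReal (by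
          rw [Real.coe_toNNReal _ (by linarith)]; linarith)
        rw [← Real.toNNReal_add ha0 (by linarith), add_sub_cancel] at h3
        exact h3
    have huniv : μ.real univ ≤ μ.real (graph f) := by
      have h4 : μ univ ≤ μ (graph f) := by
        calc μ univ = μ (graph f ∪ (graph f)ᶜ) := by rw [union_compl_self]
          _ ≤ μ (graph f) + μ (graph f)ᶜ := measure_union_le _ _
          _ = μ (graph f) := by rw [hG, add_zero]
      exact ENNReal.toReal_mono (measure_ne_top _ _) h4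
    refine huniv.trans ((measureReal_mono hsub).trans ?_)
    exact measureReal_union_le _ _
  have hlim := t1.add t2
  rw [add_zero] at hlim
  have h0 : μ.real univ ≤ 0 := ge_of_tendsto hlim hle
  have h1 : μ.real univ = 0 := le_antisymm h0 measureReal_nonneg
  rw [measureReal_def, ENNReal.toReal_eq_zero_iff] at h1
  rcases h1 with h1 | h1
  · exact hμ.2.1 (Measure.measure_univ_eq_zero.1 h1)
  · exact measure_ne_top μ univ h1

end Pool.Agent.Results.MP_4f24d6_pr.NoRajchmanGraph
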